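import Mathlib

set_option autoImplicit false

open Set Cardinal

namespace Pool.Agent.Results.MP_a3089e_lc.NonGalvin

theorem bdd {X : Type} [LinearOrder X] {κ : Cardinal.{0}} (hκ : ℵ₀ ≤ κ) (hX : κ < #X)
    (hI : ∀ a : X, #(Iio a) ≤ κ) {s : Set X} (hs : #s ≤ κ) : ∃ a, ∀ b ∈ s, b < a := by
  have h1 : #(⋃ b ∈ s, Iic b : Set X) ≤ κ := by
    refine (mk_biUnion_le _ _).trans ((mul_le_mul' hs (ciSup_le' fun b => ?_)).trans
      (mul_eq_self hκ).le)
    rw [← Iio_insert]
    exact mk_insert_le.trans ((add_le_add (hI _) (one_le_aleph0.trans hκ)).trans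
      (add_eq_self hκ).le)
  by_contra h
  push Not at h
  have : (⋃ b ∈ s, Iic b : Set X) = Set.univ := eq_univ_of_forall fun a => by
    obtain ⟨b, hb, hab⟩ := h a
    exact mem_biUnion hb hab
  rw [this, mk_univ] at h1
  exact absurd hX (not_lt.2 h1)

theorem step {X J : Type} [LinearOrder X] (hI : ∀ a : X, #(Iio a) < #X) (hJ : #J ≤ #X)
    (G : J → X → X) : ∃ g : X → X, ∀ j, ∃ c, ∀ a, c < a → G j a ≠ g a := by
  obtain ⟨ι⟩ := hJ
  have : ∀ a : X, ∃ y, y ∉ (fun j => G j a) '' {j | ι j < a} := by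
    intro a
    by_contra h
    push Not at h
    have h1 : #X ≤ #((fun j => G j a) '' {j | ι j < a}) := by
      rw [eq_univ_of_forall h, mk_univ]
    have h2 : #{j | ι j < a} ≤ #(Iio a) :=
      mk_le_of_injective (f := fun j => ⟨ι j.1, j.2⟩) fun i j h =>
        Subtype.ext (ι.injective (congrArg Subtype.val h))
    exact absurd (hI a) (not_lt.2 (h1.trans (mk_image_le.trans h2)))
  choose g hg using this
  exact ⟨g, fun j => ⟨ι j, fun a ha h => hg a ⟨j, ha, h⟩⟩⟩

theorem family {X : Type} [LinearOrder X] {κ : Cardinal.{0}} (hX : #X = Order.succ κ)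
    (hI : ∀ a : X, #(Iio a) ≤ κ)
    (h : (2 : Cardinal.{0}) ^ κ = Order.succ κ ∨
      (2 : Cardinal.{0}) ^ Order.succ κ = Order.succ (Order.succ κ)) :
    ∃ (Y : Type) (F : Y → X → X), #Y = 2 ^ Order.succ κ ∧
      ∀ i j, i ≠ j → ∃ c, ∀ a, c < a → F i a ≠ F j a := by
  rcases h with h | h
  · have : ∀ a : X, Nonempty (Set (Iio a) ↪ X) := by
      intro a
      rw [← Cardinal.le_def, mk_set, hX, ← h]
      exact power_le_power_left two_ne_zero (hI a)
    have c := fun a => (this a).some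
    refine ⟨Set X, fun A a => c a {b | b.1 ∈ A}, by rw [mk_set, hX], fun A B hAB => ?_⟩
    obtain ⟨b, hb⟩ : ∃ b, ¬ (b ∈ A ↔ b ∈ B) := by
      by_contra hh
      push Not at hh
      exact hAB (Set.ext hh)
    refine ⟨b, fun a ha he => hb ?_⟩
    exact Set.ext_iff.1 ((c a).injective he) ⟨b, ha⟩
  · let Y := (Order.succ (Order.succ κ)).ord.ToType
    have hY : #Y = Order.succ (Order.succ κ) := by simp [Y]
    have hYI : ∀ y : Y, #(Iio y) ≤ #X := by
      intro y
      rw [hX, ← Order.lt_succ_iff]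
      exact (mk_Iio_lt y (by simp [Y])).trans_eq hY
    have hI' : ∀ a : X, #(Iio a) < #X := fun a => by
      rw [hX]; exact Order.lt_succ_iff.2 (hI a)
    choose st hst using fun (y : Y) (G : Iio y → X → X) => step hI' (hYI y) G
    let F : Y → X → X := WellFounded.fix (wellFounded_lt (α := Y))
      (fun y ih => st y (fun z => ih z.1 z.2))
    have hF : ∀ y, F y = st y (fun z => F z.1) := fun y => WellFounded.fix_eq _ _ _
    have key : ∀ i j, i < j → ∃ c, ∀ a, c < a → F i a ≠ F j a := by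
      intro i j hij
      rw [hF j]
      exact hst j (fun z => F z.1) ⟨i, hij⟩
    refine ⟨Y, F, by rw [hY, h], fun i j hij => ?_⟩
    rcases lt_or_gt_of_ne hij with h | h
    · exact key i j h
    · obtain ⟨c, hc⟩ := key j i h
      exact ⟨c, fun a ha => (hc a ha).symm⟩

theorem result (κ : Cardinal.{0}) (X : Type) (hκ : ℵ₀ < κ) (hX : #X = Order.succ κ)
    (hG : (2 : Cardinal.{0}) ^ κ = Order.succ κ ∨
      (2 : Cardinal.{0}) ^ Order.succ κ = Order.succ (Order.succ κ))
    (U : Ultrafilter {x : Set X // #x < κ})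
    (hfine : ∀ a : X, {x : {x : Set X // #x < κ} | a ∈ x.1} ∈ U)
    (hnorm : ∀ f : {x : Set X // #x < κ} → X, {x : {x : Set X // #x < κ} | f x ∈ x.1} ∈ U →
      ∃ a : X, {x : {x : Set X // #x < κ} | f x = a} ∈ U) :
    ∃ S : Set (Set {x : Set X // #x < κ}), (∀ s ∈ S, s ∈ U) ∧ #S = 2 ^ Order.succ κ ∧
      ∀ T ⊆ S, #T = κ → ⋂₀ T ∉ U := by
  classical
  obtain ⟨_, _, ho⟩ := Cardinal.exists_ord_eq_type_lt X
  have hI : ∀ a : X, #(Iio a) ≤ κ := fun a => by
    rw [← Order.lt_succ_iff, ← hX]; exact mk_Iio_lt a ho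
  have hκX : κ < #X := by rw [hX]; exact Order.lt_succ κ
  obtain ⟨Y, F, hY, hF⟩ := family hX hI hG
  let C : Y → Set {x : Set X // #x < κ} := fun y => {x | ∀ a ∈ x.1, F y a ∈ x.1}
  have hC : ∀ y, C y ∈ U := by
    intro y
    by_contra hn
    have hn' : (C y)ᶜ ∈ U := Ultrafilter.compl_mem_iff_notMem.2 hn
    have : Nonempty X := mk_ne_zero_iff.1 (hκX.trans_le' bot_le).ne'
    have h1 : ∀ x : {x : Set X // #x < κ}, ∃ a, x ∈ (C y)ᶜ → a ∈ x.1 ∧ F y a ∉ x.1 := by
      intro x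
      by_cases hx : x ∈ (C y)ᶜ
      · obtain ⟨a, ha⟩ := not_forall.1 hx
        exact ⟨a, fun _ => Classical.not_imp.1 ha⟩
      · exact ⟨Classical.arbitrary X, fun h => absurd h hx⟩
    choose g hg using h1
    obtain ⟨a, ha⟩ := hnorm g (Filter.mem_of_superset hn' fun x hx => (hg x hx).1)
    obtain ⟨x, ⟨h1, h2⟩, h3⟩ := U.nonempty_of_mem
      (Filter.inter_mem (Filter.inter_mem hn' ha) (hfine (F y a)))
    have h2' : g x = a := h2
    exact (hg x h1).2 (h2' ▸ h3)
  have key : ∀ I : Set Y, #I = κ → ∀ W ∈ U, ¬ ∀ y ∈ I, W ⊆ C y := by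
    intro I hIκ W hW hsub
    choose c hc using hF
    let s : Set X := range fun p : {p : I × I // p.1.1 ≠ p.2.1} => c p.1.1 p.1.2 p.2
    have hs : #s ≤ κ := by
      refine mk_range_le.trans ((mk_subtype_le _).trans ?_)
      rw [mk_prod, lift_id, hIκ, mul_eq_self hκ.le]
    obtain ⟨a, ha⟩ := bdd hκ.le hκX hI hs
    obtain ⟨x, h1, h2⟩ := U.nonempty_of_mem (Filter.inter_mem hW (hfine a))
    have h3 : #I ≤ #x.1 := by
      refine mk_le_of_injective (f := fun y => ⟨F y.1 a, hsub y.1 y.2 h1 a h2⟩) fun i j hij => ?_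
      by_contra hne
      have hne' : i.1 ≠ j.1 := fun h => hne (Subtype.ext h)
      exact hc i j hne' a (ha _ ⟨⟨(i, j), hne'⟩, rfl⟩) (congrArg Subtype.val hij)
    rw [hIκ] at h3
    exact absurd x.2 (not_lt.2 h3)
  refine ⟨range C, by rintro _ ⟨y, rfl⟩; exact hC y, ?_, ?_⟩
  · refine le_antisymm (mk_range_le.trans hY.le) ?_
    by_contra hlt
    rw [not_le] at hlt
    have hm : max #(range C) κ < 2 ^ Order.succ κ :=
      max_lt hlt ((Order.lt_succ κ).trans (cantor _))
    have hinf : ℵ₀ ≤ max #(range C) κ := hκ.le.trans (le_max_right _ _)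
    obtain ⟨t, ht⟩ := infinite_pigeonhole_card (rangeFactorization C)
      (Order.succ (max #(range C) κ)) (by rw [hY]; exact Order.succ_le_of_lt hm)
      (hinf.trans (Order.le_succ _)) (by
        rw [(isRegular_succ hinf).cof_ord]; exact Order.lt_succ_iff.2 (le_max_left _ _))
    obtain ⟨I, hI1, hI2⟩ := le_mk_iff_exists_subset.1
      (((le_max_right _ _).trans (Order.le_succ _)).trans ht)
    obtain ⟨t, y0, rfl⟩ := t
    refine key I hI2 (C y0) (hC y0) fun y hy => ?_
    have : C y = C y0 := congrArg Subtype.val (hI1 hy)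
    rw [this]
  · intro T hT hTκ hU
    choose p hp using fun t : T => hT t.2
    refine key (range p) ?_ _ hU ?_
    · rw [mk_range_eq _ fun a b h => Subtype.ext (by rw [← hp a, ← hp b, h]), hTκ]
    · rintro _ ⟨t, rfl⟩
      rw [hp t]
      exact sInter_subset_of_mem t.2

end Pool.Agent.Results.MP_a3089e_lc.NonGalvin
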